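import Pool.Agent.N273.BR.Stm2

/-!
Project BR (helper273), second order, part WN2: bounds in a window (helper300).
-/

set_option autoImplicit false

open MeasureTheory Filter Set
open scoped Topology ENNReal

namespace Pool.Agent.N300.BR

open Pool.Agent.N273.BR

theorem wn2 : Pool.Agent.N273.BR.WN2 := by
  intro δ c hδ hδ4
  have hc0 : 0 ≤ |c| := abs_nonneg c
  have hlogN : Tendsto (fun k : ℕ => Real.log (k : ℝ)) atTop atTop :=
    Real.tendsto_log_atTop.comp tendsto_natCast_atTop_atTop
  have hll : Tendsto (fun k : ℕ => Real.log (Real.log (k : ℝ))) atTop atTop :=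
    Real.tendsto_log_atTop.comp hlogN
  have hsq : Tendsto (fun k : ℕ => ((k : ℝ)) ^ 2) atTop atTop :=
    (tendsto_pow_atTop two_ne_zero).comp tendsto_natCast_atTop_atTop
  have hX : Tendsto (fun k : ℕ => Real.log (Real.log ((k : ℝ) ^ 2))) atTop atTop :=
    Real.tendsto_log_atTop.comp (Real.tendsto_log_atTop.comp hsq)
  have hε : 0 < 1 / (2 * (|c| + 1)) := by positivity
  have hb1 := hX.eventually (Real.isLittleO_log_id_atTop.bound hε)
  have hb2 := (tendsto_natCast_atTop_atTop (R := ℝ)).eventually
    (Real.isLittleO_log_id_atTop.bound (show (0 : ℝ) < 1 / 4 by norm_num))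
  filter_upwards [hb1, hb2, hlogN.eventually_ge_atTop 1, hll.eventually_ge_atTop 1,
    (tendsto_natCast_atTop_atTop (R := ℝ)).eventually_ge_atTop (2 * (1 + |c|) + 4)] with
    k h1 h2 h3 h4 h5
  have hk0 : (0 : ℝ) < k := by linarith
  have hk1 : (4 : ℝ) ≤ k := by linarith
  obtain ⟨x, hx⟩ : ∃ x, x = Real.log (Real.log ((k : ℝ) ^ 2)) := ⟨_, rfl⟩
  have hlog2 : Real.log ((k : ℝ) ^ 2) = 2 * Real.log k := by
    rw [Real.log_pow]
    push_cast
    rfl
  have hx1 : Real.log (Real.log (k : ℝ)) ≤ x := by
    rw [hx, hlog2]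
    exact Real.log_le_log (by linarith) (by linarith)
  have hx0 : 1 ≤ x := h4.trans hx1
  have hlx0 : 0 ≤ Real.log x := Real.log_nonneg hx0
  rw [← hx] at h1
  simp only [id, Real.norm_eq_abs] at h1 h2
  rw [abs_of_nonneg hlx0, abs_of_nonneg (by linarith : (0 : ℝ) ≤ x)] at h1
  rw [abs_of_nonneg (by linarith), abs_of_pos hk0] at h2
  have hcx : |c| * Real.log x ≤ x / 2 := by
    have e1 : |c| * Real.log x ≤ |c| * (1 / (2 * (|c| + 1)) * x) :=
      mul_le_mul_of_nonneg_left h1 hc0
    have e2 : |c| * (1 / (2 * (|c| + 1)) * x) = (|c| / (|c| + 1)) * (x / 2) := by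
      field_simp
    have e3 : |c| / (|c| + 1) ≤ 1 := by
      rw [div_le_one (by positivity)]
      linarith
    have e4 : (|c| / (|c| + 1)) * (x / 2) ≤ 1 * (x / 2) :=
      mul_le_mul_of_nonneg_right e3 (by linarith)
    linarith
  have hcl : -(|c| * Real.log x) ≤ c * Real.log x := by
    have := neg_abs_le c
    nlinarith
  have hcu : c * Real.log x ≤ |c| * Real.log x :=
    mul_le_mul_of_nonneg_right (le_abs_self c) hlx0
  obtain ⟨B, hB⟩ : ∃ B, B = x + c * Real.log x + 1 := ⟨_, rfl⟩
  have hB0 : x / 2 + 1 ≤ B := by rw [hB]; linarith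
  have huu : uu c k = B / (2 * k) := by
    unfold uu
    rw [← hx, hB]
  have hxk : x ≤ k / 2 := by
    have e1 : x ≤ Real.log ((k : ℝ) ^ 2) := by
      rw [hx]
      have := Real.log_le_sub_one_of_pos (show 0 < Real.log ((k : ℝ) ^ 2) by rw [hlog2]; linarith)
      linarith
    rw [hlog2] at e1
    linarith
  refine ⟨fun n hn1 hn2 => ?_, ?_, ?_, ?_⟩
  · have hn1' : (k : ℝ) ^ 2 ≤ n := by exact_mod_cast hn1
    have hn2' : (n : ℝ) < (k : ℝ) ^ 2 + 2 * k := by exact_mod_cast hn2
    have hn0 : (0 : ℝ) < n := by nlinarith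
    have hs0 : 0 < √(n : ℝ) := Real.sqrt_pos.2 hn0
    have hs1 : (k : ℝ) ≤ √(n : ℝ) := Real.le_sqrt_of_sq_le hn1'
    have hs2 : √(n : ℝ) ≤ 2 * k := by
      rw [Real.sqrt_le_left (by linarith)]
      nlinarith
    have hln : Real.log ((k : ℝ) ^ 2) ≤ Real.log n := Real.log_le_log (by positivity) hn1'
    have hl2 : 1 ≤ Real.log ((k : ℝ) ^ 2) := by rw [hlog2]; linarith
    obtain ⟨y, hy⟩ : ∃ y, y = Real.log (Real.log (n : ℝ)) := ⟨_, rfl⟩
    have hxy : x ≤ y := by
      rw [hx, hy]
      exact Real.log_le_log (by linarith) hln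
    have hyx : y - x ≤ 2 / k := by
      have e1 : y - x = Real.log (Real.log n / Real.log ((k : ℝ) ^ 2)) := by
        rw [hx, hy, Real.log_div (by linarith) (by linarith)]
      have e2 := Real.log_le_sub_one_of_pos
        (show 0 < Real.log n / Real.log ((k : ℝ) ^ 2) by
          apply div_pos <;> linarith)
      have e3 : Real.log n / Real.log ((k : ℝ) ^ 2) - 1 ≤ Real.log n - Real.log ((k : ℝ) ^ 2) := by
        rw [div_sub_one (by linarith), div_le_iff₀ (by linarith)]
        nlinarith
      have e4 : Real.log n - Real.log ((k : ℝ) ^ 2) ≤ 2 / k := by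
        rw [← Real.log_div hn0.ne' (by positivity)]
        have e5 := Real.log_le_sub_one_of_pos (show 0 < (n : ℝ) / (k : ℝ) ^ 2 by positivity)
        have e6 : (n : ℝ) / (k : ℝ) ^ 2 - 1 ≤ 2 / k := by
          rw [div_sub_one (by positivity), div_le_div_iff₀ (by positivity) hk0]
          nlinarith
        linarith
      linarith
    have hlyx : Real.log y - Real.log x ≤ 2 / k := by
      rw [← Real.log_div (by linarith) (by linarith)]
      have e1 := Real.log_le_sub_one_of_pos (show 0 < y / x by apply div_pos <;> linarith)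
      have e2 : y / x - 1 ≤ y - x := by
        rw [div_sub_one (by linarith), div_le_iff₀ (by linarith)]
        nlinarith
      linarith
    have hlyx0 : 0 ≤ Real.log y - Real.log x := by
      have := Real.log_le_log (by linarith) hxy
      linarith
    constructor
    · unfold ll LL
      apply mul_le_mul_of_nonneg_left _ hδ.le
      rw [← hy]
      exact div_le_div₀ (by linarith) (by linarith) hs0 hs2
    · have hA : y + c * Real.log y ≤ B := by
        have e1 : c * (Real.log y - Real.log x) ≤ |c| * (2 / k) :=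
          (mul_le_mul_of_nonneg_right (le_abs_self c) hlyx0).trans
            (mul_le_mul_of_nonneg_left hlyx hc0)
        have e2 : (1 + |c|) * (2 / k) ≤ 1 := by
          rw [mul_div_assoc', div_le_one hk0]
          linarith
        rw [hB]
        have e3 : c * (Real.log y - Real.log x) = c * Real.log y - c * Real.log x := by ring
        have e4 : (1 + |c|) * (2 / k) = 2 / k + |c| * (2 / k) := by ring
        linarith
      rw [huu]
      unfold lam
      rw [← hy]
      exact div_le_div₀ (by linarith) hA (by positivity) (by linarith)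
  · unfold ll
    have : 0 ≤ Real.log (Real.log (k : ℝ)) / (2 * k) := div_nonneg (by linarith) (by positivity)
    exact mul_nonneg hδ.le this
  · rw [huu]
    unfold ll
    rw [mul_div_assoc']
    apply div_le_div_of_nonneg_right _ (by positivity)
    have e1 : δ * Real.log (Real.log (k : ℝ)) ≤ 1 / 4 * Real.log (Real.log (k : ℝ)) :=
      mul_le_mul_of_nonneg_right hδ4 (by linarith)
    linarith
  · rw [huu, div_le_one (by positivity), hB]
    linarith

end Pool.Agent.N300.BR
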